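import Mathlib
import Pool.Agent.R391.DS.Greedy

open Filter

namespace Pool.Agent.Results.MP_79a1cb_co.AlternationSuperRoot

/-- The word `w` is obtained from the word `v` by an injective renaming of the letters of `v`. -/
def Iso (v w : List ℕ) : Prop :=
  ∃ f : ℕ → ℕ, Set.InjOn f {x | x ∈ v} ∧ v.map f = w

/-- The word `u` is `v`-free: no subsequence of `u` is isomorphic to `v`. -/
def VFree (v u : List ℕ) : Prop := ∀ w : List ℕ, w.Sublist u → ¬ Iso v w

/-- The largest length of a `v`-free subsequence of `u`. -/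
noncomputable def LSS (u v : List ℕ) : ℕ :=
  sSup {k | ∃ w : List ℕ, w.Sublist u ∧ VFree v w ∧ w.length = k}

/-- The least value of `LSS u v` over all words `u` of length `m`. -/
noncomputable def ss (m : ℕ) (v : List ℕ) : ℕ :=
  sInf {k | ∃ u : List ℕ, u.length = m ∧ LSS u v = k}

/-- The alternation `0101...` of length `n`. -/
def alt (n : ℕ) : List ℕ := (List.range n).map (fun i => i % 2)

theorem vfree_of_free5 (n : ℕ) (hn : 5 ≤ n) (f : ℕ → ℕ) (S : Finset ℕ)
    (hS : R391DS.Free5 f S) (l : List ℕ) (hl : l.Pairwise (· < ·)) (hlS : ∀ p ∈ l, p ∈ S) :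
    VFree (alt n) (l.map f) := by
  rintro w hw ⟨g, hg, hgw⟩
  rw [List.sublist_map_iff] at hw
  obtain ⟨l', hl', rfl⟩ := hw
  have hlen : l'.length = n := by
    have := congrArg List.length hgw
    simpa [alt] using this.symm
  have hp : l'.Pairwise (· < ·) := hl.sublist hl'
  have hval : ∀ i (hi : i < n), f (l'[i]'(by omega)) = g (i % 2) := by
    intro i hi
    have h1 : ((alt n).map g)[i]'(by simpa [alt] using hi) =
        (l'.map f)[i]'(by simpa using (by omega : i < l'.length)) := by
      simp only [hgw]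
    rw [List.getElem_map, List.getElem_map] at h1
    rw [← h1]
    simp [alt]
  have hmem : ∀ i (hi : i < n), l'[i]'(by omega) ∈ S := fun i hi =>
    hlS _ (hl'.subset (List.getElem_mem _))
  have hlt : ∀ i j (hi : i < n) (hj : j < n), i < j → l'[i]'(by omega) < l'[j]'(by omega) := by
    intro i j hi hj hij
    exact List.pairwise_iff_getElem.1 hp i j (by omega) (by omega) hij
  have h := hS _ (hmem 0 (by omega)) _ (hmem 1 (by omega)) _ (hmem 2 (by omega)) _
    (hmem 3 (by omega)) _ (hmem 4 (by omega)) (hlt 0 1 (by omega) (by omega) (by omega))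
    (hlt 1 2 (by omega) (by omega) (by omega)) (hlt 2 3 (by omega) (by omega) (by omega))
    (hlt 3 4 (by omega) (by omega) (by omega))
    (by rw [hval 0 (by omega), hval 2 (by omega)])
    (by rw [hval 2 (by omega), hval 4 (by omega)])
    (by rw [hval 1 (by omega), hval 3 (by omega)])
  rw [hval 0 (by omega), hval 1 (by omega)] at h
  have h0 : (0 % 2 : ℕ) ∈ {x | x ∈ alt n} := by
    simp only [alt, Set.mem_ofPred_eq, List.mem_map, List.mem_range]
    exact ⟨0, by omega, rfl⟩
  have h1 : (1 % 2 : ℕ) ∈ {x | x ∈ alt n} := by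
    simp only [alt, Set.mem_ofPred_eq, List.mem_map, List.mem_range]
    exact ⟨1, by omega, rfl⟩
  have := hg h0 h1 h
  omega

theorem le_lss (n : ℕ) (hn : 5 ≤ n) (u : List ℕ) (S : Finset ℕ)
    (hSu : S ⊆ Finset.range u.length)
    (hS : R391DS.Free5 (fun i => u.getD i 0) S) : S.card ≤ LSS u (alt n) := by
  have hfull : (List.range u.length).map (fun i => u.getD i 0) = u := by
    apply List.ext_getElem
    · simp
    · intro i h1 h2
      simp [List.getElem?_eq_getElem h2]
  have hnd : ((List.range u.length).filter (fun i => decide (i ∈ S))).Nodup :=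
    List.nodup_range.filter _
  have hcard : ((List.range u.length).filter (fun i => decide (i ∈ S))).length = S.card := by
    rw [← List.toFinset_card_of_nodup hnd]
    congr 1
    ext i
    simp only [List.mem_toFinset, List.mem_filter, List.mem_range, decide_eq_true_eq]
    constructor
    · exact fun h => h.2
    · exact fun h => ⟨Finset.mem_range.1 (hSu h), h⟩
  apply le_csSup
  · refine ⟨u.length, ?_⟩
    rintro k ⟨w, hw, _, rfl⟩
    exact hw.length_le
  · refine ⟨((List.range u.length).filter (fun i => decide (i ∈ S))).map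
      (fun i => u.getD i 0), ?_, ?_, ?_⟩
    · have := (List.filter_sublist (p := fun i => decide (i ∈ S))
        (l := List.range u.length)).map (fun i => u.getD i 0)
      rwa [hfull] at this
    · apply vfree_of_free5 n hn _ S hS
      · exact List.pairwise_lt_range.filter _
      · intro p hp
        simp only [List.mem_filter, decide_eq_true_eq] at hp
        exact hp.2
    · rw [List.length_map, hcard]

/-- For every `n ≥ 5` the quantity `ss(m, a_n)` grows faster than `√m`. -/
theorem result : ∀ n : ℕ, 5 ≤ n →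
    Tendsto (fun m : ℕ => (ss m (alt n) : ℝ) / Real.sqrt m) atTop atTop := by
  intro n hn
  rw [tendsto_atTop]
  intro B
  obtain ⟨K, hK⟩ := exists_nat_ge (2 * B)
  obtain ⟨s0, hs0⟩ := R391DS.greedy (K + 1) (by omega)
  filter_upwards [eventually_ge_atTop ((s0 + 1) * (s0 + 1))] with m hm
  have hs : s0 + 1 ≤ Nat.sqrt m := Nat.le_sqrt.2 hm
  have h1 : Nat.sqrt m * Nat.sqrt m ≤ m := Nat.sqrt_le m
  have h2 : m < (Nat.sqrt m + 1) * (Nat.sqrt m + 1) := Nat.lt_succ_sqrt m
  have hss : (K + 1) * Nat.sqrt m ≤ ss m (alt n) := by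
    have hne : {k | ∃ u : List ℕ, u.length = m ∧ LSS u (alt n) = k}.Nonempty :=
      ⟨_, List.replicate m 0, by simp, rfl⟩
    obtain ⟨u, hu, hu'⟩ := Nat.sInf_mem hne
    obtain ⟨S, hS1, hS2, hS3⟩ := hs0 (Nat.sqrt m) (by omega) (fun i => u.getD i 0)
    have h3 := le_lss n hn u S (hS1.trans (by
      intro p hp
      rw [Finset.mem_range] at hp ⊢
      omega)) hS2
    unfold ss
    rw [← hu']
    exact hS3.trans h3
  have hsq : Real.sqrt m ≤ 2 * (Nat.sqrt m : ℝ) := by
    rw [Real.sqrt_le_left (by positivity)]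
    have h4 : m ≤ (2 * Nat.sqrt m) * (2 * Nat.sqrt m) := by
      refine h2.le.trans (Nat.mul_le_mul ?_ ?_) <;> omega
    have h5 : (m : ℝ) ≤ ((2 * Nat.sqrt m) * (2 * Nat.sqrt m) : ℕ) := by exact_mod_cast h4
    refine h5.trans (le_of_eq ?_)
    push_cast
    ring
  have hpos : 0 < Real.sqrt m := by
    apply Real.sqrt_pos.2
    have : 0 < m := by nlinarith
    exact_mod_cast this
  rw [le_div_iff₀ hpos]
  have hssR : ((K : ℝ) + 1) * (Nat.sqrt m : ℝ) ≤ (ss m (alt n) : ℝ) := by exact_mod_cast hss
  have hs' : (0 : ℝ) ≤ (Nat.sqrt m : ℝ) := by positivity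
  rcases le_or_gt B 0 with hB | hB
  · have : B * Real.sqrt m ≤ 0 := mul_nonpos_of_nonpos_of_nonneg hB hpos.le
    have h6 : (0 : ℝ) ≤ (ss m (alt n) : ℝ) := by positivity
    linarith
  · calc B * Real.sqrt m ≤ B * (2 * (Nat.sqrt m : ℝ)) := mul_le_mul_of_nonneg_left hsq hB.le
      _ = (2 * B) * (Nat.sqrt m : ℝ) := by ring
      _ ≤ ((K : ℝ) + 1) * (Nat.sqrt m : ℝ) := by
          apply mul_le_mul_of_nonneg_right _ hs'
          linarith
      _ ≤ _ := hssR

end Pool.Agent.Results.MP_79a1cb_co.AlternationSuperRoot
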